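import Pool.Agent.H82.HD.TA

/-!
MP_ee74d2_an, theorem HD, row PTC: planks with a common back projection.
-/

set_option autoImplicit false

namespace Pool.Agent.H11.HD

open MeasureTheory Set Finset
open Pool.Agent.H83.G
open Pool.Agent.H82.HD
open scoped ENNReal NNReal RealInnerProductSpace

section

variable {m : ℕ}

lemma sR_pos {R : ℝ} (hR : 1 ≤ R) : 0 < sR R := by
  unfold sR; exact inv_pos.2 (Real.sqrt_pos.2 (by linarith))

lemma sR_le_one {R : ℝ} (hR : 1 ≤ R) : sR R ≤ 1 := by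
  unfold sR; exact inv_le_one_of_one_le₀ (Real.one_le_sqrt.2 hR)

lemma sR_inv {R : ℝ} : (sR R)⁻¹ = Real.sqrt R := by unfold sR; rw [inv_inv]

lemma sR_pow {R : ℝ} (hR : 1 ≤ R) (n : ℕ) : sR R ^ n = R ^ (-((n : ℝ) / 2)) := by
  have h0 : (0 : ℝ) ≤ R := by linarith
  unfold sR
  rw [Real.sqrt_eq_rpow, ← Real.rpow_neg h0, ← Real.rpow_natCast, ← Real.rpow_mul h0]
  congr 1
  ring

lemma cont_Lo (η : E m) (s : ℝ) : Continuous (Lo η s : Z m → Z m) := by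
  unfold Lo
  fun_prop

lemma cont_bp (η : E m) : Continuous (bp η : Z m → ℝ × E m) := by
  unfold bp tm
  fun_prop

lemma cont_fc (R δ : ℝ) (k : Fin m → ℤ) : Continuous (fc R δ k : Z m → Z m) := by
  unfold fc
  exact (cont_Lo (ctr (sR R) k) (sR R)).const_smul (R ^ (-δ))

/-- planks near `z₀` whose back projection is near `p`: all their points are -/
lemma near_big (hBPG : T_BPG) (hLOA : T_LOA) (hLOB : T_LOB) (m : ℕ) (D : ℝ) (hD : 0 ≤ D) :
    ∃ C : ℝ, 1 ≤ C ∧ ∀ (R T δ B : ℝ) (c : E m) (z zW z₀ l : Z m) (p : ℝ × E m), 1 ≤ R → 0 < δ →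
      0 ≤ B → R ^ (1 + 2 * δ) ≤ T → ‖c‖ ≤ D →
      ‖R ^ (-δ) • Lo c (sR R) z - l‖ ≤ 2 * R ^ δ → ‖R ^ (-δ) • Lo c (sR R) zW - l‖ ≤ R ^ δ →
      ‖zW - z₀‖ ≤ B * R → ‖bp c zW - p‖ ≤ B * (T * sR R) →
      ‖z - z₀‖ ≤ (C + B) * R ^ (2 * δ) * R ∧
      ‖bp c z - p‖ ≤ (C + B) * R ^ (2 * δ) * (T * sR R) := by
  obtain ⟨hb1, -, -, -, hb5⟩ := hBPG m
  obtain ⟨Cb, hCb, hb6, -⟩ := hb5 D hD
  obtain ⟨hl1, -⟩ := hLOA m
  obtain ⟨-, hl2, -⟩ := hLOB m D hD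
  refine ⟨6 * Cb + 3 * (1 + D) ^ 2, by nlinarith [sq_nonneg (1 + D)], ?_⟩
  intro R T δ B c z zW z₀ l p hR hδ hB hT hc h1 h2 h3 h4
  have hR0 : 0 < R := by linarith
  have hs := sR_pos hR
  have hs1 := sR_le_one hR
  have hsi : (sR R)⁻¹ = Real.sqrt R := sR_inv
  have hsq : Real.sqrt R * Real.sqrt R = R := Real.mul_self_sqrt hR0.le
  have hsq1 : 1 ≤ Real.sqrt R := Real.one_le_sqrt.2 hR
  have hRd : 0 < R ^ δ := Real.rpow_pos_of_pos hR0 _
  have hR2 : 1 ≤ R ^ (2 * δ) := Real.one_le_rpow hR (by linarith)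
  have hdd : R ^ δ * R ^ δ = R ^ (2 * δ) := by
    rw [← Real.rpow_add hR0]; congr 1; ring
  -- the difference
  have hu : ‖Lo c (sR R) (z - zW)‖ ≤ 3 * R ^ (2 * δ) := by
    have e : R ^ (-δ) • Lo c (sR R) (z - zW) =
        (R ^ (-δ) • Lo c (sR R) z - l) - (R ^ (-δ) • Lo c (sR R) zW - l) := by
      rw [(hl1 c (sR R) z zW).2.1, smul_sub]; abel
    have h5 : ‖R ^ (-δ) • Lo c (sR R) (z - zW)‖ ≤ 3 * R ^ δ := by
      rw [e]
      refine (norm_sub_le _ _).trans ?_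
      linarith
    rw [norm_smul, Real.norm_of_nonneg (Real.rpow_nonneg hR0.le _), Real.rpow_neg hR0.le] at h5
    rw [inv_mul_le_iff₀ hRd] at h5
    calc ‖Lo c (sR R) (z - zW)‖ ≤ R ^ δ * (3 * R ^ δ) := h5
      _ = 3 * (R ^ δ * R ^ δ) := by ring
      _ = 3 * R ^ (2 * δ) := by rw [hdd]
  have hn : ‖z - zW‖ ≤ 3 * (1 + D) ^ 2 * R ^ (2 * δ) * R := by
    have h6 := hl2 c (sR R) (z - zW) hc hs hs1
    rw [hsi] at h6
    have h7 : (Real.sqrt R) ^ 2 = R := by rw [sq]; exact hsq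
    rw [h7] at h6
    calc ‖z - zW‖ ≤ (1 + D) ^ 2 * R * ‖Lo c (sR R) (z - zW)‖ := h6
      _ ≤ (1 + D) ^ 2 * R * (3 * R ^ (2 * δ)) := by
          apply mul_le_mul_of_nonneg_left hu; positivity
      _ = 3 * (1 + D) ^ 2 * R ^ (2 * δ) * R := by ring
  have hTs : Real.sqrt R * R ^ (2 * δ) ≤ T * sR R := by
    have h8 : R * R ^ (2 * δ) ≤ T := by
      have : R * R ^ (2 * δ) = R ^ (1 + 2 * δ) := by
        rw [Real.rpow_add hR0, Real.rpow_one]
      rw [this]; exact hT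
    have h9 : sR R * Real.sqrt R = 1 := by
      rw [← hsi]; exact mul_inv_cancel₀ hs.ne'
    calc Real.sqrt R * R ^ (2 * δ) = sR R * Real.sqrt R * (Real.sqrt R * R ^ (2 * δ)) := by
          rw [h9, one_mul]
      _ = sR R * (Real.sqrt R * Real.sqrt R) * R ^ (2 * δ) := by ring
      _ = (R * R ^ (2 * δ)) * sR R := by rw [hsq]; ring
      _ ≤ T * sR R := mul_le_mul_of_nonneg_right h8 hs.le
  have hTs0 : 0 ≤ T * sR R := le_trans (by positivity) hTs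
  have hbu : ‖bp c (z - zW)‖ ≤ 6 * Cb * (T * sR R) := by
    have h10 := (hb6 c (z - zW) hc).2.2.1
    have h11 : |(Lo c 1 (z - zW)).1| ≤ 3 * R ^ (2 * δ) := by
      have : (Lo c 1 (z - zW)).1 = (Lo c (sR R) (z - zW)).1 := rfl
      rw [this]
      exact (norm_fst_le (Lo c (sR R) (z - zW))).trans hu
    have h12 : ‖(Lo c 1 (z - zW)).2.1‖ ≤ Real.sqrt R * (3 * R ^ (2 * δ)) := by
      have e1 : (Lo c 1 (z - zW)).2.1 = (z - zW).2.1 + (2 * (z - zW).2.2) • c := by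
        simp only [Lo, one_smul]
      have e2 : (Lo c (sR R) (z - zW)).2.1 = sR R • ((z - zW).2.1 + (2 * (z - zW).2.2) • c) := rfl
      have h13 : ‖(Lo c (sR R) (z - zW)).2.1‖ ≤ 3 * R ^ (2 * δ) :=
        ((norm_fst_le (Lo c (sR R) (z - zW)).2).trans (norm_snd_le _)).trans hu
      rw [e2, norm_smul, Real.norm_of_nonneg hs.le] at h13
      rw [e1]
      have h14 : Real.sqrt R * sR R = 1 := by rw [← hsi]; exact inv_mul_cancel₀ hs.ne'
      calc ‖(z - zW).2.1 + (2 * (z - zW).2.2) • c‖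
          = Real.sqrt R * (sR R * ‖(z - zW).2.1 + (2 * (z - zW).2.2) • c‖) := by
            rw [← mul_assoc, h14, one_mul]
        _ ≤ Real.sqrt R * (3 * R ^ (2 * δ)) := mul_le_mul_of_nonneg_left h13 (by linarith)
    have h15 : R ^ (2 * δ) ≤ Real.sqrt R * R ^ (2 * δ) := le_mul_of_one_le_left (by linarith) hsq1
    calc ‖bp c (z - zW)‖ ≤ Cb * (|(Lo c 1 (z - zW)).1| + ‖(Lo c 1 (z - zW)).2.1‖) := h10
      _ ≤ Cb * (3 * R ^ (2 * δ) + Real.sqrt R * (3 * R ^ (2 * δ))) :=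
          mul_le_mul_of_nonneg_left (add_le_add h11 h12) (by linarith)
      _ ≤ Cb * (6 * (Real.sqrt R * R ^ (2 * δ))) := by
          apply mul_le_mul_of_nonneg_left _ (by linarith); linarith
      _ ≤ Cb * (6 * (T * sR R)) := by
          apply mul_le_mul_of_nonneg_left _ (by linarith); linarith
      _ = 6 * Cb * (T * sR R) := by ring
  constructor
  · have e : z - z₀ = (z - zW) + (zW - z₀) := by abel
    rw [e]
    refine (norm_add_le _ _).trans ?_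
    have h16 : B * R ≤ B * R ^ (2 * δ) * R := by
      have : B * R * 1 ≤ B * R * R ^ (2 * δ) := mul_le_mul_of_nonneg_left hR2 (by positivity)
      linarith
    have h17 : 0 ≤ 6 * Cb * R ^ (2 * δ) * R := by positivity
    calc ‖z - zW‖ + ‖zW - z₀‖ ≤ 3 * (1 + D) ^ 2 * R ^ (2 * δ) * R + B * R ^ (2 * δ) * R :=
          add_le_add hn (h3.trans h16)
      _ ≤ (6 * Cb + 3 * (1 + D) ^ 2 + B) * R ^ (2 * δ) * R := by linarith
  · have e : bp c z - p = bp c (z - zW) + (bp c zW - p) := by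
      rw [(hb1 c z zW).2]; abel
    rw [e]
    refine (norm_add_le _ _).trans ?_
    have h18 : (6 * Cb + B) * (T * sR R) ≤
        (6 * Cb + 3 * (1 + D) ^ 2 + B) * R ^ (2 * δ) * (T * sR R) := by
      apply mul_le_mul_of_nonneg_right _ hTs0
      have h19 : 0 ≤ 3 * (1 + D) ^ 2 := by positivity
      calc 6 * Cb + B ≤ 6 * Cb + 3 * (1 + D) ^ 2 + B := by linarith
        _ = (6 * Cb + 3 * (1 + D) ^ 2 + B) * 1 := (mul_one _).symm
        _ ≤ (6 * Cb + 3 * (1 + D) ^ 2 + B) * R ^ (2 * δ) :=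
            mul_le_mul_of_nonneg_left hR2 (by linarith)
    calc ‖bp c (z - zW)‖ + ‖bp c zW - p‖ ≤ 6 * Cb * (T * sR R) + B * (T * sR R) :=
          add_le_add hbu h4
      _ = (6 * Cb + B) * (T * sR R) := by ring
      _ ≤ _ := h18

/-- far from its centre the weight is small -/
lemma wt_far (hWT1 : T_WT1) (m N : ℕ) (hN : m + 3 ≤ N) (R δ : ℝ) (hR : 1 ≤ R) (x : Z m)
    (hx : R ^ δ ≤ ‖x‖) :
    wt N x ≤ R ^ (-(δ * ((N - (m + 3) : ℕ) : ℝ))) * wt (m + 3) x := by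
  obtain ⟨h1, -, -, -, -, h6, -⟩ := hWT1 m (m + 3)
  have e : N = (m + 3) + (N - (m + 3)) := by omega
  have h7 := h6 x (N - (m + 3))
  rw [← e] at h7
  rw [h7, mul_comm]
  apply mul_le_mul_of_nonneg_right _ (h1 x).1.le
  have hR0 : 0 < R := by linarith
  unfold wt
  have h8 : (R ^ δ) ^ (N - (m + 3)) ≤ (1 + ‖x‖) ^ (N - (m + 3)) :=
    pow_le_pow_left₀ (Real.rpow_nonneg hR0.le _) (by linarith) _
  have h9 : 0 < (R ^ δ) ^ (N - (m + 3)) := pow_pos (Real.rpow_pos_of_pos hR0 _) _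
  calc ((1 + ‖x‖) ^ (N - (m + 3)))⁻¹ ≤ ((R ^ δ) ^ (N - (m + 3)))⁻¹ := inv_anti₀ h9 h8
    _ = R ^ (-(δ * ((N - (m + 3) : ℕ) : ℝ))) := by
        rw [Real.rpow_neg hR0.le, Real.rpow_mul hR0.le, Real.rpow_natCast]

/-- sum of the weights over planks with one cap -/
lemma sum_wt_le (m N : ℕ) (C3 : ℝ≥0)
    (h : ∀ (c : ℝ) (x : Z m), 0 < c → c ≤ 1 →
      ∑' l : Zi m, ENNReal.ofReal (wt N (c • zc l - x)) ≤ C3 * ENNReal.ofReal ((c⁻¹) ^ (m + 2)))
    (S : Finset (Pk m)) (k : Fin m → ℤ) (x : Z m) (hS : ∀ W ∈ S, W.1 = k) :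
    ∑ W ∈ S, ENNReal.ofReal (wt N (x - zc W.2)) ≤ C3 := by
  classical
  have h1 : ∑ W ∈ S, ENNReal.ofReal (wt N (x - zc W.2)) =
      ∑ l ∈ S.image Prod.snd, ENNReal.ofReal (wt N (x - zc l)) := by
    rw [sum_image]
    intro W hW W' hW' hh
    exact Prod.ext ((hS W hW).trans (hS W' hW').symm) hh
  rw [h1]
  refine (ENNReal.sum_le_tsum _).trans ?_
  have h2 := h 1 x one_pos le_rfl
  have h3 : ∀ l : Zi m, wt N ((1 : ℝ) • zc l - x) = wt N (x - zc l) := by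
    intro l
    unfold wt
    rw [one_smul, norm_sub_rev]
  simp only [h3] at h2
  simpa using h2

end

theorem pf_PTC (hCVR : T_CVR) (hBPG : T_BPG) (hAMU : T_AMU) (hLOA : T_LOA) (hLOB : T_LOB)
    (hWT1 : T_WT1) (hWT3 : T_WT3) (hPUS : T_PUS) (hSCH : T_SCH) (hCPS : T_CPS) : T_PTC := by
  classical
  intro m L β δ ε₂ B hβ hδ hδ1 hε hB
  obtain ⟨N₁, hN₁⟩ := exists_nat_ge (2 * ((m : ℝ) + 2) / δ)
  refine ⟨m + 3 + N₁, ?_⟩
  intro N hN
  have hmN : m + 3 ≤ N := by omega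
  obtain ⟨hp1, hp2, Cp, hCp, -, -, hp3⟩ := hPUS m
  obtain ⟨C₁, hC₁, hnear⟩ := near_big hBPG hLOA hLOB m Cp hCp.le
  obtain ⟨C₄, hC₄, hcvr⟩ := hCVR m
  obtain ⟨C₃, hw3, -⟩ := hWT3 m N hmN
  obtain ⟨C₅, hC₅, hamu⟩ := hAMU m L (m + 3) β δ hβ hδ.le le_rfl
  obtain ⟨C₆, hC₆, hamu'⟩ := hAMU m L N β δ hβ hδ.le hmN
  obtain ⟨ht1, -, ht3, ht4⟩ := hBPG m
  obtain ⟨hq1, hq2, -⟩ := hWT1 m N
  set C₀ : ℝ := C₁ + B with hC₀
  have hC₀1 : 1 ≤ C₀ := by rw [hC₀]; linarith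
  set Cf : ℝ := 32 * C₀ + C₃ * (C₄ * C₀ ^ (2 * m + 3)) + B * C₅ ^ 2 with hCf
  have hC₃0 : (0 : ℝ) ≤ C₃ := C₃.2
  have hCf1 : 32 * C₀ ≤ Cf := by
    have : 0 ≤ (C₃ : ℝ) * (C₄ * C₀ ^ (2 * m + 3)) + B * C₅ ^ 2 := by positivity
    rw [hCf]; linarith
  refine ⟨Cf, by linarith, ?_⟩
  intro κ R T A a G z₀ p S hκ hκ1 hR hCR hT hA ha hG hBC hz1 hz2 hcard hS
  have hR0 : 0 < R := by linarith
  have hs := sR_pos hR
  have hs1 := sR_le_one hR
  have hRd : 0 < R ^ δ := Real.rpow_pos_of_pos hR0 _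
  have hdd : R ^ δ * R ^ δ = R ^ (2 * δ) := by
    rw [← Real.rpow_add hR0]; congr 1; ring
  have hR2 : 1 ≤ R ^ (2 * δ) := Real.one_le_rpow hR (by linarith)
  have hRd1 : 1 ≤ R ^ δ := Real.one_le_rpow hR hδ.le
  have hCR2 : 32 * C₀ ≤ R ^ (2 * δ) := by
    rw [← hdd]
    calc 32 * C₀ ≤ Cf := hCf1
      _ ≤ R ^ δ := hCR
      _ = R ^ δ * 1 := (mul_one _).symm
      _ ≤ R ^ δ * R ^ δ := mul_le_mul_of_nonneg_left hRd1 hRd.le
  have hT0 : 0 < T := lt_of_lt_of_le (Real.rpow_pos_of_pos hR0 _) hT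
  have hT2 : R ^ (1 + 2 * δ) ≤ T :=
    (Real.rpow_le_rpow_of_exponent_le hR (by linarith)).trans hT
  have hT4 : R * R ^ (2 * δ) * R ^ (2 * δ) ≤ T := by
    have : R * R ^ (2 * δ) * R ^ (2 * δ) = R ^ (1 + 4 * δ) := by
      have e : (1 : ℝ) + 4 * δ = 1 + 2 * δ + 2 * δ := by ring
      rw [e, Real.rpow_add hR0, Real.rpow_add hR0, Real.rpow_one]
    rw [this]
    exact (Real.rpow_le_rpow_of_exponent_le hR (by linarith)).trans hT
  have hTC : TC G := hG.1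
  have hsupp : ∀ ζ, G ζ ≠ 0 → ζ ∈ Rg m κ R⁻¹ := hG.2.1
  set lam : ℝ := C₀ * R ^ (2 * δ) with hlam
  have hlam1 : 1 ≤ lam := by
    rw [hlam]
    exact one_le_mul_of_one_le_of_one_le hC₀1 hR2
  -- the functions
  set f : (Fin m → ℤ) → Z m → ℝ≥0∞ :=
    fun k z => ‖TP β (ctr (sR R) k) (sR R) G z‖ₑ ^ 2 with hf
  have hfm : ∀ k, Measurable (f k) := by
    intro k
    have h1 : TC (fun ζ => cp β (ctr (sR R) k) (sR R) ζ * G ζ) :=
      hCPS m β _ _ G hβ.1 hs hTC (fun ζ hζ => by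
        have := (hsupp ζ hζ).1
        linarith)
    have h2 : Continuous (TP β (ctr (sR R) k) (sR R) G) := (hSCH m _ h1).1
    exact (h2.measurable.enorm).pow_const 2
  have hwm : ∀ (M : ℕ) (W : Pk m), Measurable (fun z : Z m =>
      ENNReal.ofReal (wt M (fc R δ W.1 z - zc W.2))) := by
    intro M W
    have h1 : Continuous (fun z : Z m => wt M (fc R δ W.1 z - zc W.2)) :=
      (hWT1 m M).2.1.comp ((cont_fc R δ W.1).sub continuous_const)
    exact h1.measurable.ennreal_ofReal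
  set Bg : (Fin m → ℤ) → Set (Z m) := fun k =>
    {z : Z m | ‖z - z₀‖ ≤ lam * R ∧ ‖bp (ctr (sR R) k) z - p‖ ≤ lam * (T * sR R)} with hBg
  have hBgm : ∀ k, MeasurableSet (Bg k) := by
    intro k
    have h1 : IsClosed {z : Z m | ‖z - z₀‖ ≤ lam * R} :=
      isClosed_le (continuous_id.sub continuous_const).norm continuous_const
    have h2 : IsClosed {z : Z m | ‖bp (ctr (sR R) k) z - p‖ ≤ lam * (T * sR R)} :=
      isClosed_le ((cont_bp _).sub continuous_const).norm continuous_const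
    exact (h1.inter h2).measurableSet
  have hm1 : ∀ W : Pk m, Measurable (fun z : Z m => (Bg W.1).indicator (f W.1) z *
      ENNReal.ofReal (wt N (fc R δ W.1 z - zc W.2))) := fun W =>
    ((hfm W.1).indicator (hBgm W.1)).mul (hwm N W)
  have hm2 : ∀ W : Pk m, Measurable (fun z : Z m => f W.1 z *
      ENNReal.ofReal (wt (m + 3) (fc R δ W.1 z - zc W.2))) := fun W =>
    (hfm W.1).mul (hwm (m + 3) W)
  set P : ℝ := R ^ (-(δ * ((m : ℝ) + 2))) * sR R ^ (m + 2) with hP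
  have hP0 : 0 ≤ P := by rw [hP]; positivity
  set q : ℝ := R ^ (-(δ * ((N - (m + 3) : ℕ) : ℝ))) with hq
  have hq0 : 0 ≤ q := Real.rpow_nonneg hR0.le _
  -- pointwise
  have hpt : ∀ W ∈ S, ∀ z, f W.1 z * ENNReal.ofReal (wt N (fc R δ W.1 z - zc W.2)) ≤
      (Bg W.1).indicator (f W.1) z * ENNReal.ofReal (wt N (fc R δ W.1 z - zc W.2)) +
      ENNReal.ofReal q * (f W.1 z * ENNReal.ofReal (wt (m + 3) (fc R δ W.1 z - zc W.2))) := by
    intro W hW z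
    obtain ⟨hWk, -, zW, hzW, hzW1, hzW2⟩ := hS W hW
    by_cases hz : ‖fc R δ W.1 z - zc W.2‖ ≤ 2 * R ^ δ
    · have h1 := hnear R T δ B (ctr (sR R) W.1) z zW z₀ (zc W.2) p hR hδ (by linarith) hT2
        (hp3 _ _ hs hs1 hWk) hz hzW hzW1 hzW2
      have h2 : z ∈ Bg W.1 := h1
      rw [indicator_of_mem h2]
      exact le_self_add
    · push Not at hz
      have h3 := wt_far hWT1 m N hmN R δ hR (fc R δ W.1 z - zc W.2) (by linarith)
      refine le_trans ?_ le_add_self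
      calc f W.1 z * ENNReal.ofReal (wt N (fc R δ W.1 z - zc W.2))
          ≤ f W.1 z * ENNReal.ofReal (q * wt (m + 3) (fc R δ W.1 z - zc W.2)) := by
            gcongr
        _ = ENNReal.ofReal q *
            (f W.1 z * ENNReal.ofReal (wt (m + 3) (fc R δ W.1 z - zc W.2))) := by
            rw [ENNReal.ofReal_mul hq0]; ring
  -- one plank
  have hone : ∀ W ∈ S, al2 N β R δ G W ≤
      ENNReal.ofReal P * (∫⁻ z, (Bg W.1).indicator (f W.1) z *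
        ENNReal.ofReal (wt N (fc R δ W.1 z - zc W.2))) +
      ENNReal.ofReal (q * (C₅ * A) ^ 2) := by
    intro W hW
    have h1 : ∫⁻ z, f W.1 z * ENNReal.ofReal (wt N (fc R δ W.1 z - zc W.2)) ≤
        (∫⁻ z, (Bg W.1).indicator (f W.1) z *
          ENNReal.ofReal (wt N (fc R δ W.1 z - zc W.2))) +
        ENNReal.ofReal q * ∫⁻ z, f W.1 z *
          ENNReal.ofReal (wt (m + 3) (fc R δ W.1 z - zc W.2)) := by
      refine (lintegral_mono (hpt W hW)).trans ?_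
      rw [lintegral_add_left (hm1 W), lintegral_const_mul _ (hm2 W)]
    have h2 : al2 N β R δ G W = ENNReal.ofReal P *
        ∫⁻ z, f W.1 z * ENNReal.ofReal (wt N (fc R δ W.1 z - zc W.2)) := rfl
    have h3 : ENNReal.ofReal P * ∫⁻ z, f W.1 z *
        ENNReal.ofReal (wt (m + 3) (fc R δ W.1 z - zc W.2)) = al2 (m + 3) β R δ G W := rfl
    obtain ⟨h4, h5⟩ := hamu κ R A G W hκ (by linarith) hR hA hG
    have h6 : al2 (m + 3) β R δ G W ≤ ENNReal.ofReal ((C₅ * A) ^ 2) := by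
      rw [h5]
      apply ENNReal.ofReal_le_ofReal
      have : 0 ≤ al (m + 3) β R δ G W := Real.sqrt_nonneg _
      exact pow_le_pow_left₀ this h4 2
    rw [h2]
    calc ENNReal.ofReal P * ∫⁻ z, f W.1 z * ENNReal.ofReal (wt N (fc R δ W.1 z - zc W.2))
        ≤ ENNReal.ofReal P * ((∫⁻ z, (Bg W.1).indicator (f W.1) z *
          ENNReal.ofReal (wt N (fc R δ W.1 z - zc W.2))) +
          ENNReal.ofReal q * ∫⁻ z, f W.1 z *
          ENNReal.ofReal (wt (m + 3) (fc R δ W.1 z - zc W.2))) := by gcongr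
      _ = ENNReal.ofReal P * (∫⁻ z, (Bg W.1).indicator (f W.1) z *
          ENNReal.ofReal (wt N (fc R δ W.1 z - zc W.2))) +
          ENNReal.ofReal q * al2 (m + 3) β R δ G W := by rw [← h3]; ring
      _ ≤ _ := by
          rw [ENNReal.ofReal_mul hq0]
          gcongr
  -- the near part
  have hnearsum : ∑ W ∈ S, ∫⁻ z, (Bg W.1).indicator (f W.1) z *
      ENNReal.ofReal (wt N (fc R δ W.1 z - zc W.2)) ≤
      C₃ * (ENNReal.ofReal (C₄ * lam ^ (2 * m + 3)) *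
        ENNReal.ofReal (A ^ 2 * R ^ m * R ^ (3 - (m : ℝ) / 2))) := by
    rw [← sum_fiberwise_of_maps_to (fun W hW => (hS W hW).1)]
    have h1 : ∀ k ∈ Ks m (sR R), ∑ W ∈ S with W.1 = k, ∫⁻ z, (Bg W.1).indicator (f W.1) z *
        ENNReal.ofReal (wt N (fc R δ W.1 z - zc W.2)) ≤ C₃ * ∫⁻ z in Bg k, f k z := by
      intro k _
      rw [← lintegral_finsetSum _ (fun W _ => hm1 W),
        ← lintegral_indicator (hBgm k), ← lintegral_const_mul _ ((hfm k).indicator (hBgm k))]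
      refine lintegral_mono fun z => ?_
      calc ∑ W ∈ S with W.1 = k, (Bg W.1).indicator (f W.1) z *
            ENNReal.ofReal (wt N (fc R δ W.1 z - zc W.2))
          = ∑ W ∈ S with W.1 = k, (Bg k).indicator (f k) z *
            ENNReal.ofReal (wt N (fc R δ k z - zc W.2)) := by
            refine sum_congr rfl fun W hW => ?_
            rw [(mem_filter.1 hW).2]
        _ = (Bg k).indicator (f k) z * ∑ W ∈ S with W.1 = k,
            ENNReal.ofReal (wt N (fc R δ k z - zc W.2)) := by rw [mul_sum]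
        _ ≤ (Bg k).indicator (f k) z * C₃ := by
            gcongr
            exact sum_wt_le m N C₃ hw3 _ k _ (fun W hW => (mem_filter.1 hW).2)
        _ = C₃ * (Bg k).indicator (f k) z := mul_comm _ _
    refine (sum_le_sum h1).trans ?_
    rw [← mul_sum]
    gcongr
    refine hcvr T R lam z₀ p (Ks m (sR R)) (ctr (sR R)) f _ hT0 hR0 hlam1 ?_
    intro z' p' hz'
    have h2 : |tm z' - tm z₀| ≤ T / 8 := by
      have h3 := (ht3 z' z₀ 0).2.1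
      have h4 := (ht3 (z' - z₀) z₀ 0).2.2.2
      rw [← h3]
      refine h4.trans ?_
      have h5 : 4 * (C₀ * R ^ (2 * δ)) * R ≤ T / 8 := by
        have h6 : R * R ^ (2 * δ) * (32 * C₀) ≤ R * R ^ (2 * δ) * R ^ (2 * δ) :=
          mul_le_mul_of_nonneg_left hCR2 (by positivity)
        linarith
      rw [hlam] at hz'
      linarith
    obtain ⟨h7, h8⟩ := abs_le.1 h2
    have hκT : κ * T ≤ 3 / 8 * T := mul_le_mul_of_nonneg_right hκ1 hT0.le
    exact hBC R z' p' hR le_rfl (by linarith) (by linarith)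
  -- summation
  have hsum : ENNReal.ofReal ((S.card : ℝ) * a ^ 2) ≤
      ENNReal.ofReal P * (C₃ * (ENNReal.ofReal (C₄ * lam ^ (2 * m + 3)) *
        ENNReal.ofReal (A ^ 2 * R ^ m * R ^ (3 - (m : ℝ) / 2)))) +
      (S.card : ℝ≥0∞) * ENNReal.ofReal (q * (C₅ * A) ^ 2) := by
    have h1 : ∀ W ∈ S, ENNReal.ofReal (a ^ 2) ≤ al2 N β R δ G W := by
      intro W hW
      rw [(hamu' κ R A G W hκ (by linarith) hR hA hG).2]
      exact ENNReal.ofReal_le_ofReal (pow_le_pow_left₀ ha.le (hS W hW).2.1 2)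
    have h2 : ENNReal.ofReal ((S.card : ℝ) * a ^ 2) = ∑ _W ∈ S, ENNReal.ofReal (a ^ 2) := by
      rw [sum_const, nsmul_eq_mul, ENNReal.ofReal_mul (by positivity), ENNReal.ofReal_natCast]
    rw [h2]
    refine (sum_le_sum h1).trans ((sum_le_sum hone).trans ?_)
    rw [sum_add_distrib, ← mul_sum, sum_const, nsmul_eq_mul]
    gcongr
  -- real form
  have hreal : (S.card : ℝ) * a ^ 2 ≤
      P * (C₃ * (C₄ * lam ^ (2 * m + 3) * (A ^ 2 * R ^ m * R ^ (3 - (m : ℝ) / 2)))) +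
      S.card * (q * (C₅ * A) ^ 2) := by
    have h1 : ENNReal.ofReal P * (C₃ * (ENNReal.ofReal (C₄ * lam ^ (2 * m + 3)) *
        ENNReal.ofReal (A ^ 2 * R ^ m * R ^ (3 - (m : ℝ) / 2)))) +
        (S.card : ℝ≥0∞) * ENNReal.ofReal (q * (C₅ * A) ^ 2) =
        ENNReal.ofReal (P * (C₃ * (C₄ * lam ^ (2 * m + 3) *
          (A ^ 2 * R ^ m * R ^ (3 - (m : ℝ) / 2)))) + S.card * (q * (C₅ * A) ^ 2)) := by
      rw [ENNReal.ofReal_add (by positivity) (by positivity), ENNReal.ofReal_mul hP0,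
        ENNReal.ofReal_mul hC₃0, ENNReal.ofReal_mul (p := C₄ * lam ^ (2 * m + 3)) (by positivity),
        ENNReal.ofReal_mul (p := (S.card : ℝ)) (by positivity), ENNReal.ofReal_natCast,
        ENNReal.ofReal_coe_nnreal]
    rw [h1] at hsum
    exact (ENNReal.ofReal_le_ofReal_iff (by positivity)).1 hsum
  refine hreal.trans ?_
  have hlo : 1 ≤ R ^ (lo m * δ) := Real.one_le_rpow hR (by unfold lo; positivity)
  -- the power of the near part
  have hpow : P * (lam ^ (2 * m + 3) * (R ^ m * R ^ (3 - (m : ℝ) / 2))) ≤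
      C₀ ^ (2 * m + 3) * (R ^ (lo m * δ) * R ^ 2) := by
    have e1 : lam ^ (2 * m + 3) = C₀ ^ (2 * m + 3) * R ^ (2 * δ * ((2 * m + 3 : ℕ) : ℝ)) := by
      rw [hlam, mul_pow, ← Real.rpow_natCast (R ^ (2 * δ)), ← Real.rpow_mul hR0.le]
    have e2 : P = R ^ (-(δ * ((m : ℝ) + 2))) * R ^ (-(((m + 2 : ℕ) : ℝ) / 2)) := by
      rw [hP, sR_pow hR]
    have e3 : (R : ℝ) ^ m = R ^ (m : ℝ) := (Real.rpow_natCast R m).symm
    have e4 : (R : ℝ) ^ 2 = R ^ (2 : ℝ) := by norm_num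
    rw [e1, e2, e3, e4, ← Real.rpow_add hR0, ← Real.rpow_add hR0, ← Real.rpow_add hR0]
    have e5 : R ^ (-(δ * ((m : ℝ) + 2)) + -(((m + 2 : ℕ) : ℝ) / 2)) *
        (C₀ ^ (2 * m + 3) * R ^ (2 * δ * ((2 * m + 3 : ℕ) : ℝ)) * R ^ ((m : ℝ) + (3 - (m : ℝ) / 2)))
        = C₀ ^ (2 * m + 3) * R ^ (-(δ * ((m : ℝ) + 2)) + -(((m + 2 : ℕ) : ℝ) / 2) +
          2 * δ * ((2 * m + 3 : ℕ) : ℝ) + ((m : ℝ) + (3 - (m : ℝ) / 2))) := by
      rw [Real.rpow_add hR0 (-(δ * ((m : ℝ) + 2)) + -(((m + 2 : ℕ) : ℝ) / 2) +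
          2 * δ * ((2 * m + 3 : ℕ) : ℝ)), Real.rpow_add hR0 (-(δ * ((m : ℝ) + 2)) +
          -(((m + 2 : ℕ) : ℝ) / 2))]
      ring
    rw [e5]
    apply mul_le_mul_of_nonneg_left _ (by positivity)
    apply Real.rpow_le_rpow_of_exponent_le hR
    push_cast
    unfold lo
    have hm : (0 : ℝ) ≤ m := Nat.cast_nonneg m
    linarith [mul_nonneg hm hδ.le]
  -- the far part
  have hfar : (S.card : ℝ) * q ≤ B := by
    have h1 : (S.card : ℝ) * q ≤ B * R ^ (2 * ((m : ℝ) + 2)) * q :=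
      mul_le_mul_of_nonneg_right hcard hq0
    refine h1.trans ?_
    have h2 : R ^ (2 * ((m : ℝ) + 2)) * q ≤ 1 := by
      rw [hq, ← Real.rpow_add hR0]
      apply Real.rpow_le_one_of_one_le_of_nonpos hR
      have h3 : (N₁ : ℝ) ≤ ((N - (m + 3) : ℕ) : ℝ) := by
        have : N₁ ≤ N - (m + 3) := by omega
        exact_mod_cast this
      have h4 : 2 * ((m : ℝ) + 2) ≤ δ * ((N - (m + 3) : ℕ) : ℝ) := by
        have h5 : 2 * ((m : ℝ) + 2) / δ ≤ ((N - (m + 3) : ℕ) : ℝ) := hN₁.trans h3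
        rw [div_le_iff₀ hδ] at h5
        linarith
      linarith
    calc B * R ^ (2 * ((m : ℝ) + 2)) * q = B * (R ^ (2 * ((m : ℝ) + 2)) * q) := by ring
      _ ≤ B * 1 := mul_le_mul_of_nonneg_left h2 (by linarith)
      _ = B := mul_one B
  have hA2 : 0 < A ^ 2 := by positivity
  have hR22 : 1 ≤ R ^ 2 := one_le_pow₀ hR
  have hfin1 : P * (C₃ * (C₄ * lam ^ (2 * m + 3) * (A ^ 2 * R ^ m * R ^ (3 - (m : ℝ) / 2)))) ≤
      C₃ * (C₄ * C₀ ^ (2 * m + 3)) * (R ^ (lo m * δ) * (A ^ 2 * R ^ 2)) := by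
    calc P * (C₃ * (C₄ * lam ^ (2 * m + 3) * (A ^ 2 * R ^ m * R ^ (3 - (m : ℝ) / 2))))
        = C₃ * C₄ * A ^ 2 * (P * (lam ^ (2 * m + 3) * (R ^ m * R ^ (3 - (m : ℝ) / 2)))) := by ring
      _ ≤ C₃ * C₄ * A ^ 2 * (C₀ ^ (2 * m + 3) * (R ^ (lo m * δ) * R ^ 2)) :=
          mul_le_mul_of_nonneg_left hpow (by positivity)
      _ = _ := by ring
  have hfin2 : (S.card : ℝ) * (q * (C₅ * A) ^ 2) ≤
      B * C₅ ^ 2 * (R ^ (lo m * δ) * (A ^ 2 * R ^ 2)) := by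
    calc (S.card : ℝ) * (q * (C₅ * A) ^ 2) = S.card * q * (C₅ ^ 2 * A ^ 2) := by ring
      _ ≤ B * (C₅ ^ 2 * A ^ 2) := mul_le_mul_of_nonneg_right hfar (by positivity)
      _ = B * C₅ ^ 2 * (1 * (A ^ 2 * 1)) := by ring
      _ ≤ _ := by gcongr
  have hfin3 : 0 ≤ 32 * C₀ * (R ^ (lo m * δ) * (A ^ 2 * R ^ 2)) := by positivity
  calc P * (C₃ * (C₄ * lam ^ (2 * m + 3) * (A ^ 2 * R ^ m * R ^ (3 - (m : ℝ) / 2)))) +
        S.card * (q * (C₅ * A) ^ 2)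
      ≤ C₃ * (C₄ * C₀ ^ (2 * m + 3)) * (R ^ (lo m * δ) * (A ^ 2 * R ^ 2)) +
        B * C₅ ^ 2 * (R ^ (lo m * δ) * (A ^ 2 * R ^ 2)) := add_le_add hfin1 hfin2
    _ ≤ Cf * R ^ (lo m * δ) * (A ^ 2 * R ^ 2) := by
        rw [hCf]; linarith

end Pool.Agent.H11.HD
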